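import Pool.Agent.W562.HY.Defs

set_option autoImplicit false

/-! Project HY, part DIAG: diagonalization and exhaustion. -/

namespace Pool.Agent.W64.HY

open Pool.Agent.W562.HY

theorem diag : P_diag := by
  intro Q K0 h1 h2 K hK hKi
  choose! g hg1 hg2 hg3 using h2
  let Ks : ℕ → Set ℕ := fun n => Nat.rec K (fun i S => g i S) n
  have hs : ∀ i, Ks (i + 1) = g i (Ks i) := fun i => rfl
  have hI : ∀ i, Ks i ⊆ K0 ∧ (Ks i).Infinite := by
    intro i
    induction i with
    | zero => exact ⟨hK, hKi⟩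
    | succ i ih =>
      rw [hs]
      exact ⟨(hg1 i (Ks i) ih.1 ih.2).trans ih.1, hg2 i (Ks i) ih.1 ih.2⟩
  have hQ : ∀ i, Q i (Ks (i + 1)) := fun i => by
    rw [hs]
    exact hg3 i (Ks i) (hI i).1 (hI i).2
  have hsub : ∀ i, Ks (i + 1) ⊆ Ks i := fun i => by
    rw [hs]
    exact hg1 i (Ks i) (hI i).1 (hI i).2
  have hanti : Antitone Ks := antitone_nat_of_succ_le hsub
  have hex : ∀ i n, ∃ k, k ∈ Ks (i + 1) ∧ n < k := fun i n => (hI (i + 1)).2.exists_gt n
  choose f hf1 hf2 using hex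
  let k : ℕ → ℕ := fun n => Nat.rec (f 0 0) (fun i x => f (i + 1) x) n
  have hk0 : k 0 = f 0 0 := rfl
  have hk1 : ∀ i, k (i + 1) = f (i + 1) (k i) := fun i => rfl
  have hkm : ∀ i, k i ∈ Ks (i + 1) := by
    intro i
    cases i with
    | zero => rw [hk0]; exact hf1 0 0
    | succ i => rw [hk1]; exact hf1 (i + 1) (k i)
  have hmono : StrictMono k := strictMono_nat_of_lt_succ fun i => by
    rw [hk1]
    exact hf2 (i + 1) (k i)
  have hinf : (Set.range k).Infinite := Set.infinite_range_of_injective hmono.injective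
  refine ⟨Set.range k, ?_, hinf, fun i => ?_⟩
  · rintro _ ⟨i, rfl⟩
    exact hanti (Nat.zero_le (i + 1)) (hkm i)
  · refine h1 i (Ks (i + 1)) _ (hQ i) hinf ?_
    refine ((Set.finite_Iio i).image k).subset ?_
    rintro _ ⟨⟨j, rfl⟩, hj⟩
    refine ⟨j, ?_, rfl⟩
    by_contra hij
    rw [Set.mem_Iio, not_lt] at hij
    exact hj (hanti (Nat.succ_le_succ hij) (hkm j))

lemma sum_le (L : List (Finset ℕ)) : ∀ B : Finset ℕ, (∀ A ∈ L, A ⊆ B) →
    L.Pairwise Disjoint → (L.map Finset.card).sum ≤ B.card := by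
  induction L with
  | nil => intro B _ _; simp
  | cons A L ih =>
    intro B hB hP
    rw [List.pairwise_cons] at hP
    have h1 := ih (B \ A) (fun C hC => by
      rw [Finset.subset_sdiff]
      exact ⟨hB C (List.mem_cons_of_mem _ hC), (hP.1 C hC).symm⟩) hP.2
    have h2 : A ⊆ B := hB A List.mem_cons_self
    have h3 := Finset.card_sdiff_add_card_eq_card h2
    rw [List.map_cons, List.sum_cons]
    omega

/-- blocks in the true structure -/
def bk (Y : ℕ → ℕ) (k : ℕ) : Finset ℕ := blk VV Y k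

/-- index set in the true structure -/
def kk (Y : ℕ → ℕ) : Set ℕ := KK VV Y

theorem exh : P_exh := by
  intro O Y m K hK hKi
  let T : ℕ → Prop := fun t => ∃ K' ⊆ K, K'.Infinite ∧ ∃ L : List (ℕ → ℕ), L.length = t ∧
    (∀ Y' ∈ L, O Y' ∧ LeR VV Y' Y ∧ K' ⊆ KK VV Y' ∧
      ∀ k ∈ K', (bk Y k).card ≤ m * (bk Y' k).card) ∧
    L.Pairwise fun Y1 Y2 : ℕ → ℕ => ∀ k ∈ K', Disjoint (bk Y1 k) (bk Y2 k)
  have hT0 : T 0 := ⟨K, subset_rfl, hKi, [], rfl, by simp, List.Pairwise.nil⟩
  have hTm : ∀ t, T t → t ≤ m := by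
    rintro t ⟨K', hK', hi, L, rfl, hL, hP⟩
    obtain ⟨k, hk⟩ := hi.nonempty
    have hpos : 0 < (bk Y k).card := Finset.card_pos.2 (hK (hK' hk))
    have h1 : ((L.map fun Y' : ℕ → ℕ => bk Y' k).map Finset.card).sum ≤ (bk Y k).card := by
      refine sum_le _ _ ?_ ?_
      · intro A hA
        rw [List.mem_map] at hA
        obtain ⟨Y', hY', rfl⟩ := hA
        exact (hL Y' hY').2.1.1 k
      · rw [List.pairwise_map]
        exact hP.imp fun h => h k hk
    have h2 : ∀ M : List (ℕ → ℕ), (∀ Y' ∈ M, (bk Y k).card ≤ m * (bk Y' k).card) →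
        M.length * (bk Y k).card ≤
          m * ((M.map fun Y' : ℕ → ℕ => bk Y' k).map Finset.card).sum := by
      intro M
      induction M with
      | nil => intro _; simp
      | cons A M ih =>
        intro h
        have e1 := ih fun Y' hY' => h Y' (List.mem_cons_of_mem _ hY')
        have e2 := h A List.mem_cons_self
        rw [List.length_cons, List.map_cons, List.map_cons, List.sum_cons, Nat.add_mul, Nat.one_mul,
          Nat.mul_add, Nat.add_comm]
        exact Nat.add_le_add e2 e1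
    have h3 := h2 L fun Y' hY' => (hL Y' hY').2.2.2 k hk
    have h4 : L.length * (bk Y k).card ≤ m * (bk Y k).card :=
      h3.trans (Nat.mul_le_mul_left _ h1)
    exact Nat.le_of_mul_le_mul_right h4 hpos
  obtain ⟨t, ht, htn⟩ : ∃ t, T t ∧ ¬ T (t + 1) := by
    by_contra hcon
    push Not at hcon
    have hall : ∀ t, T t := fun t => by
      induction t with
      | zero => exact hT0
      | succ t ih => exact hcon t ih
    exact absurd (hTm (m + 1) (hall _)) (by omega)
  obtain ⟨K', hK', hi, L, hLl, hL, hP⟩ := ht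
  refine ⟨K', hK', hi, L, fun Y' hY' => ⟨(hL Y' hY').1, (hL Y' hY').2.1, (hL Y' hY').2.2.1⟩, ?_⟩
  intro Z hZ hZK hZi hOZ hZm
  by_contra hcon
  push Not at hcon
  apply htn
  have hcon' : ∀ k ∈ kk Z, ∀ Y' ∈ L, Disjoint (bk Z k) (bk Y' k) := hcon
  refine ⟨kk Z, hZK.trans hK', hZi, Z :: L, by rw [List.length_cons, hLl], ?_, ?_⟩
  · intro Y' hY'
    rw [List.mem_cons] at hY'
    rcases hY' with rfl | hY'
    · refine ⟨hOZ, ⟨hZ, hZi, 1, m, Nat.one_pos, fun k hk => ?_⟩, subset_rfl, hZm⟩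
      have e := hZm k hk
      omega
    · obtain ⟨e1, e2, e3, e4⟩ := hL Y' hY'
      exact ⟨e1, e2, hZK.trans e3, fun k hk => e4 k (hZK hk)⟩
  · rw [List.pairwise_cons]
    refine ⟨fun Y' hY' k hk => hcon' k hk Y' hY', hP.imp fun h k hk => h k (hZK hk)⟩

end Pool.Agent.W64.HY
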