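import Pool.Agent.W610.HY.Stm2

set_option autoImplicit false

/-! Part HYPV of project HY, second round. -/

namespace Pool.Agent.W64.HY.HYPV

open Pool.Agent.W610.HY
open MeasureTheory Set Metric Filter Topology

theorem main : Pool.Agent.W610.HY.HYPV := by
  intro E _ P F U _ hU h0 hint
  have hae : ∀ᵐ z ∂(volume.restrict U), z ∈ P := by
    rw [ae_restrict_iff' hU.measurableSet, ae_iff]
    have : {z : ℂ | ¬ (z ∈ U → z ∈ P)} = U \ P := by
      ext z
      simp
    rw [this]
    exact h0
  have h1 : (∫⁻ z in U, mv P F z) = ∫⁻ z in U, ENNReal.ofReal (Real.posLog ‖F z‖) := by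
    refine lintegral_congr_ae ?_
    filter_upwards [hae] with z hz
    unfold mv
    rw [if_pos hz]
  rw [h1]
  exact (Integrable.lintegral_lt_top hint).ne

end Pool.Agent.W64.HY.HYPV
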